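import Pool.Agent.H31.LV.Basic
import Pool.Agent.H31.LV.Targets

set_option autoImplicit false

open Finset MeasureTheory

namespace Pool.Agent.H57.LVP

open Pool.Agent.H24.CL Pool.Agent.H24.LV Pool.Agent.H31.LV

lemma di_tele (g : ℕ → ℝ) (A B : ℕ) (h : A ≤ B) :
    ∑ n ∈ Ico A B, (g n - g (n + 1)) = g A - g B := by
  induction B, h using Nat.le_induction with
  | base => simp
  | succ B hB ih =>
    rw [Finset.sum_Ico_succ_top hB, ih]
    ring

lemma di_norm (a b : ℂ) : ‖a + b‖ ^ 2 = ‖b‖ ^ 2 + 2 * (b * (starRingEnd ℂ) a).re + ‖a‖ ^ 2 := by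
  rw [← Complex.normSq_eq_norm_sq, ← Complex.normSq_eq_norm_sq, ← Complex.normSq_eq_norm_sq,
    Complex.normSq_add, ← Complex.conj_re (a * (starRingEnd ℂ) b), map_mul, Complex.conj_conj,
    mul_comm ((starRingEnd ℂ) a) b]
  ring

/-- the expansion of the square -/
lemma di_expand (f : ℕ → ℂ) (A B : ℕ) (h : A ≤ B) :
    ‖∑ n ∈ Ico A B, f n‖ ^ 2 = ∑ n ∈ Ico A B, ‖f n‖ ^ 2 +
      2 * (∑ n ∈ Ico A B, (∑ m ∈ Ico (n + 1) B, f m) * (starRingEnd ℂ) (f n)).re := by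
  have h1 := di_tele (fun n => ‖∑ m ∈ Ico n B, f m‖ ^ 2) A B h
  simp only [Finset.Ico_self, Finset.sum_empty, norm_zero] at h1
  have h2 : ∀ n ∈ Ico A B, ‖∑ m ∈ Ico n B, f m‖ ^ 2 - ‖∑ m ∈ Ico (n + 1) B, f m‖ ^ 2 =
      ‖f n‖ ^ 2 + 2 * ((∑ m ∈ Ico (n + 1) B, f m) * (starRingEnd ℂ) (f n)).re := by
    intro n hn
    rw [Finset.mem_Ico] at hn
    rw [Finset.sum_eq_sum_Ico_succ_bot hn.2, di_norm]
    ring
  rw [Finset.sum_congr rfl h2, Finset.sum_add_distrib, ← Finset.mul_sum] at h1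
  rw [Complex.re_sum]
  linarith

lemma di_swap (f : ℕ → ℂ) (N A B : ℕ) (hAB : A ≤ B) (hBN : B ≤ A + N) :
    ∑ h ∈ Ico 1 N, ∑ n ∈ Ico A (B - h), f (n + h) * (starRingEnd ℂ) (f n) =
      ∑ n ∈ Ico A B, (∑ m ∈ Ico (n + 1) B, f m) * (starRingEnd ℂ) (f n) := by
  have h1 : ∀ n ∈ Ico A B, (∑ m ∈ Ico (n + 1) B, f m) * (starRingEnd ℂ) (f n) =
      ∑ h ∈ Ico 1 (B - n), f (n + h) * (starRingEnd ℂ) (f n) := by
    intro n hn
    rw [Finset.sum_mul]
    have h2 := Finset.sum_Ico_add (fun m => f m * (starRingEnd ℂ) (f n)) 1 (B - n) n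
    rw [Finset.mem_Ico] at hn
    have e1 : 1 + n = n + 1 := by omega
    have e2 : B - n + n = B := by omega
    rw [e1, e2] at h2
    rw [← h2]
  rw [Finset.sum_congr rfl h1]
  refine Finset.sum_comm' ?_
  intro h n
  rw [Finset.mem_Ico, Finset.mem_Ico, Finset.mem_Ico, Finset.mem_Ico]
  omega

theorem pf_wDI : W_DI := by
  intro N A B f δ hN hAB hBN hδ hδ1 hf hS
  have hN0 : (0 : ℝ) < N := by exact_mod_cast hN
  set S : ℕ → ℂ := fun h => ∑ n ∈ Ico A (B - h), f (n + h) * (starRingEnd ℂ) (f n) with hSdef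
  have hSn : ∀ h, ‖S h‖ ≤ N := by
    intro h
    refine (norm_sum_le _ _).trans ?_
    refine (Finset.sum_le_card_nsmul _ _ 1 (fun n _ => ?_)).trans ?_
    · rw [norm_mul, RCLike.norm_conj]
      exact mul_le_one₀ (hf _) (norm_nonneg _) (hf _)
    · rw [Nat.card_Ico, nsmul_eq_mul, mul_one]
      have : B - h - A ≤ N := by omega
      exact_mod_cast this
  -- the square
  have hS0 : (∑ n ∈ Ico A B, ‖f n‖ ^ 2 : ℝ) = ‖S 0‖ := by
    have h1 : S 0 = ((∑ n ∈ Ico A B, ‖f n‖ ^ 2 : ℝ) : ℂ) := by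
      rw [hSdef]
      push_cast
      simp only [Nat.sub_zero, add_zero]
      refine Finset.sum_congr rfl (fun n _ => ?_)
      rw [Complex.mul_conj, Complex.normSq_eq_norm_sq]
      push_cast
      rfl
    rw [h1, Complex.norm_real, Real.norm_eq_abs, abs_of_nonneg]
    exact Finset.sum_nonneg (fun n _ => by positivity)
  have hsq : ‖∑ n ∈ Ico A B, f n‖ ^ 2 ≤ 2 * ∑ h ∈ range N, ‖S h‖ := by
    rw [di_expand f A B hAB, ← di_swap f N A B hAB hBN, hS0]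
    have h1 : (∑ h ∈ Ico 1 N, S h).re ≤ ∑ h ∈ Ico 1 N, ‖S h‖ :=
      (Complex.re_le_norm _).trans (norm_sum_le _ _)
    have h2 : ∑ h ∈ range N, ‖S h‖ = ‖S 0‖ + ∑ h ∈ Ico 1 N, ‖S h‖ := by
      rw [Finset.range_eq_Ico, Finset.sum_eq_sum_Ico_succ_bot (by omega)]
    have h3 := norm_nonneg (S 0)
    rw [h2]
    linarith
  have hlow : (δ * N) ^ 2 ≤ 2 * ∑ h ∈ range N, ‖S h‖ :=
    (pow_le_pow_left₀ (by positivity) hS 2).trans hsq
  set G := (range N).filter fun h => δ ^ 2 / 4 * N ≤ ‖S h‖ with hG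
  have hup : ∑ h ∈ range N, ‖S h‖ ≤ (G.card : ℝ) * N + N * (δ ^ 2 / 4 * N) := by
    rw [← Finset.sum_filter_add_sum_filter_not (range N) (fun h => δ ^ 2 / 4 * N ≤ ‖S h‖)]
    refine add_le_add ?_ ?_
    · refine (Finset.sum_le_card_nsmul _ _ (N : ℝ) (fun h _ => hSn h)).trans ?_
      rw [nsmul_eq_mul]
    · refine (Finset.sum_le_card_nsmul _ _ (δ ^ 2 / 4 * N) (fun h hh => ?_)).trans ?_
      · rw [Finset.mem_filter] at hh
        exact (not_le.mp hh.2).le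
      · rw [nsmul_eq_mul]
        refine mul_le_mul_of_nonneg_right ?_ (by positivity)
        have := Finset.card_filter_le (range N) (fun h => ¬ δ ^ 2 / 4 * N ≤ ‖S h‖)
        rw [Finset.card_range] at this
        exact_mod_cast this
  have hfin : δ ^ 2 * N * N ≤ 2 * (G.card : ℝ) * N + δ ^ 2 / 2 * N * N := by nlinarith
  have hfin2 : δ ^ 2 * N ≤ 2 * (G.card : ℝ) + δ ^ 2 / 2 * N := by
    have h1 : (δ ^ 2 * N) * N ≤ (2 * (G.card : ℝ) + δ ^ 2 / 2 * N) * N := by linarith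
    exact le_of_mul_le_mul_right h1 hN0
  linarith

end Pool.Agent.H57.LVP
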