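import Pool.Agent.H31.LV.Basic
import Pool.Agent.H31.LV.Targets

set_option autoImplicit false

open Finset MeasureTheory

namespace Pool.Agent.H57.LVP

open Pool.Agent.H24.CL Pool.Agent.H24.LV Pool.Agent.H31.LV

lemma norm_ee_sub_one (t : ℝ) (ht : |t| ≤ 1 / 2) : 4 * |t| ≤ ‖ee t - 1‖ := by
  have h1 : ‖ee t - 1‖ = ‖2 * Real.sin (Real.pi * t)‖ := by
    have := Complex.norm_exp_I_mul_ofReal_sub_one (2 * Real.pi * t)
    unfold ee
    rw [mul_comm _ Complex.I, this]
    congr 3
    ring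
  rw [h1, norm_mul, Real.norm_eq_abs, Real.norm_eq_abs, abs_of_pos (by norm_num : (0 : ℝ) < 2)]
  have hpi := Real.pi_pos
  have h2 := Real.mul_abs_le_abs_sin (x := Real.pi * t) (by
    rw [abs_mul, abs_of_pos hpi]
    nlinarith)
  rw [abs_mul, abs_of_pos hpi] at h2
  have h3 : 2 / Real.pi * (Real.pi * |t|) = 2 * |t| := by
    field_simp
  rw [h3] at h2
  linarith

theorem pf_wGE : W_GE := by
  intro A B c
  rcases le_total B A with hAB | hAB
  · rw [Finset.Ico_eq_empty (by omega)]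
    simp
  · have h1 : ∀ n : ℕ, ee (c * n) = ee c ^ n := by
      intro n
      rw [mul_comm, ee_pow]
    rw [Finset.sum_congr rfl (fun n _ => h1 n)]
    have h2 := geom_sum_Ico_mul (ee c) hAB
    have h3 : ‖∑ i ∈ Ico A B, ee c ^ i‖ * ‖ee c - 1‖ ≤ 2 := by
      rw [← norm_mul, h2]
      refine (norm_sub_le _ _).trans ?_
      rw [norm_pow, norm_pow, norm_ee]
      norm_num
    have h4 : ee c = ee (c - round c) := by
      refine ee_congr _ _ (round c) ?_
      ring
    have h5 : 4 * |c - round c| ≤ ‖ee c - 1‖ := by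
      rw [h4]
      exact norm_ee_sub_one _ (abs_sub_round c)
    have h6 := norm_nonneg (∑ i ∈ Ico A B, ee c ^ i)
    nlinarith [mul_le_mul_of_nonneg_left h5 h6]

end Pool.Agent.H57.LVP
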