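import Pool.Agent.H31.LV.Basic
import Pool.Agent.H31.LV.Targets

set_option autoImplicit false

open Finset MeasureTheory

namespace Pool.Agent.H57.LVP

open Pool.Agent.H24.CL Pool.Agent.H24.LV Pool.Agent.H31.LV

theorem pf_wTF : W_TF := by
  intro k
  refine ⟨k * 2 ^ k + 1, by
    have : (0 : ℝ) ≤ k * 2 ^ k := by positivity
    linarith, ?_⟩
  intro q D G N x c R hq hD hG hN hx hR hnear j hj hjk
  have hq0 : (1 : ℝ) ≤ q := by exact_mod_cast hq
  have hD0 : (1 : ℝ) ≤ D := by exact_mod_cast hD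
  have hG0 : (1 : ℝ) ≤ G := by exact_mod_cast hG
  have hN0 : (1 : ℝ) ≤ N := by exact_mod_cast hN
  have hxG : (x : ℝ) ≤ G := by exact_mod_cast hx.le
  have hDN : 1 ≤ (D : ℝ) * N := by nlinarith
  have hl : ∀ l, ∃ a : ℤ, l ∈ Ico j k → |c l - (a : ℝ) / ((q * (D * G) : ℕ) : ℝ)| ≤
      R / ((((D * G : ℕ) : ℝ)) * N) ^ (l + 1) := by
    intro l
    by_cases hl : l ∈ Ico j k
    · rw [Finset.mem_Ico] at hl
      obtain ⟨a, ha⟩ := hnear l (by omega) hl.2
      exact ⟨a, fun _ => ha⟩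
    · exact ⟨0, fun h => absurd h hl⟩
  choose a ha using hl
  refine ⟨∑ l ∈ Ico j k, (Nat.choose (l + 1) (j + 1) : ℤ) * (x : ℤ) ^ (l - j) * (G : ℤ) ^ j * a l,
    ?_⟩
  have e1 : phr k G x c j - (((∑ l ∈ Ico j k, (Nat.choose (l + 1) (j + 1) : ℤ) *
      (x : ℤ) ^ (l - j) * (G : ℤ) ^ j * a l : ℤ)) : ℝ) / ((q * D : ℕ) : ℝ) =
      ∑ l ∈ Ico j k, (Nat.choose (l + 1) (j + 1) : ℝ) * ((x : ℝ) ^ (l - j) * ((G : ℝ) ^ (j + 1) *
        (c l - (a l : ℝ) / ((q * (D * G) : ℕ) : ℝ)))) := by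
    unfold phr
    push_cast
    rw [Finset.sum_div, ← Finset.sum_sub_distrib]
    refine Finset.sum_congr rfl (fun l _ => ?_)
    have hqn : (q : ℝ) ≠ 0 := by positivity
    have hDn : (D : ℝ) ≠ 0 := by positivity
    have hGn : (G : ℝ) ≠ 0 := by positivity
    rw [pow_succ]
    field_simp
  rw [e1]
  refine (Finset.abs_sum_le_sum_abs _ _).trans ?_
  refine (Finset.sum_le_card_nsmul _ _ (2 ^ k * (R / ((D : ℝ) * N) ^ (j + 1)))
    (fun l hl => ?_)).trans ?_
  · have h3 := ha l hl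
    rw [Finset.mem_Ico] at hl
    rw [abs_mul, abs_of_nonneg (by positivity : (0 : ℝ) ≤ (Nat.choose (l + 1) (j + 1) : ℝ))]
    refine mul_le_mul ?_ ?_ (abs_nonneg _) (by positivity)
    · have h4 : Nat.choose (l + 1) (j + 1) ≤ 2 ^ (l + 1) := Nat.choose_le_two_pow _ _
      have h5 : Nat.choose (l + 1) (j + 1) ≤ 2 ^ k :=
        h4.trans (Nat.pow_le_pow_right (by norm_num) (by omega))
      exact_mod_cast h5
    · rw [abs_mul, abs_mul, abs_of_nonneg (by positivity : (0 : ℝ) ≤ (x : ℝ) ^ (l - j)),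
        abs_of_nonneg (by positivity : (0 : ℝ) ≤ (G : ℝ) ^ (j + 1))]
      push_cast at h3 ⊢
      calc (x : ℝ) ^ (l - j) * ((G : ℝ) ^ (j + 1) * |c l - (a l : ℝ) / ((q : ℝ) * ((D : ℝ) * G))|)
          ≤ (G : ℝ) ^ (l - j) * ((G : ℝ) ^ (j + 1) * (R / (((D : ℝ) * G) * N) ^ (l + 1))) := by
            refine mul_le_mul (pow_le_pow_left₀ (by positivity) hxG _) ?_ (by positivity)
              (by positivity)
            exact mul_le_mul_of_nonneg_left h3 (by positivity)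
        _ = R / ((D : ℝ) * N) ^ (l + 1) := by
            have h6 : (G : ℝ) ^ (l - j) * (G : ℝ) ^ (j + 1) = (G : ℝ) ^ (l + 1) := by
              rw [← pow_add]
              congr 1
              omega
            have h7 : (((D : ℝ) * G) * N) ^ (l + 1) =
                (G : ℝ) ^ (l + 1) * ((D : ℝ) * N) ^ (l + 1) := by
              rw [← mul_pow]
              congr 1
              ring
            rw [h7, ← mul_assoc, h6]
            field_simp
        _ ≤ R / ((D : ℝ) * N) ^ (j + 1) := by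
            refine div_le_div_of_nonneg_left hR (by positivity) ?_
            exact pow_le_pow_right₀ hDN (by omega)
  · rw [nsmul_eq_mul, Nat.card_Ico]
    have h8 : 0 ≤ R / ((D : ℝ) * N) ^ (j + 1) := by positivity
    have h9 : ((k - j : ℕ) : ℝ) ≤ k := by
      have : k - j ≤ k := Nat.sub_le _ _
      exact_mod_cast this
    have h10 : ((k - j : ℕ) : ℝ) * (2 ^ k * (R / ((D : ℝ) * N) ^ (j + 1))) ≤
        k * (2 ^ k * (R / ((D : ℝ) * N) ^ (j + 1))) :=
      mul_le_mul_of_nonneg_right h9 (by positivity)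
    have e3 : (k * 2 ^ k + 1) * R / ((D : ℝ) * N) ^ (j + 1) =
        k * (2 ^ k * (R / ((D : ℝ) * N) ^ (j + 1))) + R / ((D : ℝ) * N) ^ (j + 1) := by
      ring
    rw [e3]
    linarith

end Pool.Agent.H57.LVP
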