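import Pool.Agent.H31.LV.Basic
import Pool.Agent.H31.LV.Targets
import Pool.Agent.H57.LVP.wDI

set_option autoImplicit false

open Finset MeasureTheory

namespace Pool.Agent.H57.LVP

open Pool.Agent.H24.CL Pool.Agent.H24.LV Pool.Agent.H31.LV

lemma vh_range (D K : ℕ) (F : ℕ → ℂ) :
    ∑ x ∈ range D, ∑ n ∈ range K, F (x + D * n) = ∑ m ∈ range (D * K), F m := by
  rw [Finset.sum_comm]
  induction K with
  | zero => simp
  | succ K ih =>
    rw [Finset.sum_range_succ, ih, Nat.mul_succ, Finset.sum_range_add]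
    congr 1
    refine Finset.sum_congr rfl (fun x _ => ?_)
    rw [add_comm]

theorem pf_wVH : W_VH := by
  intro k D N b c hD hN hb
  have hD0 : (0 : ℝ) < D := by exact_mod_cast hD
  have hN0 : (0 : ℝ) < N := by exact_mod_cast hN
  set G : ℕ → ℕ → ℂ := fun x n => ee (pl k c ((x : ℝ) + D * n)) with hG
  set F : ℕ → ℕ → ℂ := fun h m => ee (pl k c ((m : ℝ) + D * h) - pl k c m) with hF
  have hGn : ∀ x n, ‖G x n‖ = 1 := fun x n => norm_ee _
  have hGF : ∀ x n h, G x (n + h) * (starRingEnd ℂ) (G x n) = F h (x + D * n) := by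
    intro x n h
    rw [hG, hF]
    simp only
    rw [ee_sub]
    push_cast
    rw [mul_add, add_assoc]
  have hu : ∀ x, ‖u N (phi D x b)‖ ^ 2 = (1 / (N : ℝ)) ^ 2 * ‖∑ n ∈ range N, G x n‖ ^ 2 := by
    intro x
    rw [u_eq (Lft_phr hb D x) N]
    have h1 : ∑ n ∈ range N, ee (pl k (phr k D x c) n) =
        (∑ n ∈ range N, G x n) * (starRingEnd ℂ) (ee (pl k c x)) := by
      rw [Finset.sum_mul]
      refine Finset.sum_congr rfl (fun n _ => ?_)
      rw [pl_phr, ee_sub]
    rw [h1, norm_mul, norm_mul, RCLike.norm_conj, norm_ee, mul_one, mul_pow]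
    congr 2
    rw [norm_div, norm_one, Complex.norm_natCast]
  have hexp : ∀ x, ‖∑ n ∈ range N, G x n‖ ^ 2 = N +
      2 * (∑ h ∈ Ico 1 N, ∑ n ∈ range (N - h), F h (x + D * n)).re := by
    intro x
    rw [Finset.range_eq_Ico, di_expand (G x) 0 N (Nat.zero_le _),
      ← di_swap (G x) N 0 N (Nat.zero_le _) (by omega)]
    congr 1
    · rw [Finset.sum_congr rfl (fun n _ => by rw [hGn x n])]
      simp
    · congr 2
      refine Finset.sum_congr rfl (fun h _ => ?_)
      rw [← Finset.range_eq_Ico]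
      exact Finset.sum_congr rfl (fun n _ => hGF x n h)
  have hsum : ∑ x ∈ range D, ‖∑ n ∈ range N, G x n‖ ^ 2 = D * N +
      2 * (∑ h ∈ Ico 1 N, ∑ m ∈ range (D * (N - h)), F h m).re := by
    have hsw : ∑ x ∈ range D, ∑ h ∈ Ico 1 N, ∑ n ∈ range (N - h), F h (x + D * n) =
        ∑ h ∈ Ico 1 N, ∑ m ∈ range (D * (N - h)), F h m := by
      rw [Finset.sum_comm]
      refine Finset.sum_congr rfl (fun h _ => ?_)
      exact vh_range D (N - h) (F h)
    rw [Finset.sum_congr rfl (fun x _ => hexp x), Finset.sum_add_distrib, Finset.sum_const,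
      Finset.card_range, nsmul_eq_mul, ← Finset.mul_sum, ← Complex.re_sum, hsw]
  have hVD : VD D N b = 1 / N + (2 / N) * ((1 / ((D : ℝ) * N)) *
      (∑ h ∈ Ico 1 N, ∑ m ∈ range (D * (N - h)), F h m).re) := by
    unfold VD
    rw [Finset.sum_congr rfl (fun x _ => hu x), ← Finset.mul_sum, hsum]
    field_simp
  rw [hVD]
  refine add_le_add (le_refl _) (mul_le_mul_of_nonneg_left ?_ (by positivity))
  have h1 : (∑ h ∈ Ico 1 N, ∑ m ∈ range (D * (N - h)), F h m).re ≤
      ∑ h ∈ Ico 1 N, ‖∑ m ∈ range (D * (N - h)), F h m‖ :=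
    (Complex.re_le_norm _).trans (norm_sum_le _ _)
  have h2 : ∑ h ∈ Ico 1 N, ‖(1 / ((D : ℂ) * N)) * ∑ m ∈ range (D * (N - h)),
        ee (pl k c ((m : ℝ) + D * h) - pl k c m)‖ =
      (1 / ((D : ℝ) * N)) * ∑ h ∈ Ico 1 N, ‖∑ m ∈ range (D * (N - h)), F h m‖ := by
    rw [Finset.mul_sum]
    refine Finset.sum_congr rfl (fun h _ => ?_)
    rw [norm_mul]
    congr 1
    rw [norm_div, norm_one, norm_mul, Complex.norm_natCast, Complex.norm_natCast]
  rw [h2]
  exact mul_le_mul_of_nonneg_left h1 (by positivity)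

end Pool.Agent.H57.LVP
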