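import Pool.Agent.H31.LV.Basic
import Pool.Agent.H31.LV.Targets

set_option autoImplicit false

open Finset MeasureTheory

namespace Pool.Agent.H57.LVP

open Pool.Agent.H24.CL Pool.Agent.H24.LV Pool.Agent.H31.LV

lemma wd_ident (d q n i : ℕ) (q₂ : ℕ) (c : ℕ → ℝ) (hi : i < d) :
    ((q₂ * q ^ d : ℕ) : ℝ) * c i = (q : ℝ) ^ (d - i - 1) * (q₂ * phr d q n c i) -
      ∑ j ∈ Ico (i + 1) d, (Nat.choose (j + 1) (i + 1) : ℝ) * (n : ℝ) ^ (j - i) *
        (((q₂ * q ^ d : ℕ) : ℝ) * c j) := by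
  have hpow : (q : ℝ) ^ (d - i - 1) * (q : ℝ) ^ (i + 1) = (q : ℝ) ^ d := by
    rw [← pow_add]
    congr 1
    omega
  have h1 : (q : ℝ) ^ (d - i - 1) * (q₂ * phr d q n c i) =
      ∑ j ∈ Ico i d, (Nat.choose (j + 1) (i + 1) : ℝ) * (n : ℝ) ^ (j - i) *
        (((q₂ * q ^ d : ℕ) : ℝ) * c j) := by
    unfold phr
    rw [Finset.mul_sum, Finset.mul_sum]
    refine Finset.sum_congr rfl (fun j _ => ?_)
    push_cast
    rw [← hpow]
    ring
  rw [h1, Finset.sum_eq_sum_Ico_succ_bot hi]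
  simp

lemma wd_step (d : ℕ) (t : ℕ) (ht : t ≤ d) : ∃ C : ℝ, 1 ≤ C ∧ ∀ (q n N q₂ : ℕ) (c : ℕ → ℝ)
    (E : ℝ), 1 ≤ q → 1 ≤ N → n ≤ N →
    0 ≤ E → (∀ i < d, ∃ a : ℤ, |q₂ * phr d q n c i - a| ≤ E / (N : ℝ) ^ (i + 1)) →
    ∀ i < d, d - t ≤ i → ∃ a : ℤ, |((q₂ * q ^ d : ℕ) : ℝ) * c i - a| ≤
      C * (q : ℝ) ^ d * E / (N : ℝ) ^ (i + 1) := by
  induction t with
  | zero =>
    refine ⟨1, le_refl _, ?_⟩
    intro q n N q₂ c E _ _ _ _ _ i hi hi2
    omega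
  | succ t ih =>
    obtain ⟨C, hC1, hC⟩ := ih (by omega)
    refine ⟨1 + C + d * 2 ^ d * C, ?_, ?_⟩
    · have : 0 ≤ (d : ℝ) * 2 ^ d * C := by positivity
      linarith
    intro q n N q₂ c E hq hN hn hE hph i hi hi2
    have hq0 : (1 : ℝ) ≤ q := by exact_mod_cast hq
    have hN0 : (1 : ℝ) ≤ N := by exact_mod_cast hN
    have hnN : (n : ℝ) ≤ N := by exact_mod_cast hn
    have hNi : (0 : ℝ) < (N : ℝ) ^ (i + 1) := by positivity
    have hC' := hC q n N q₂ c E hq hN hn hE hph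
    have hj : ∀ j, ∃ a : ℤ, j ∈ Ico (i + 1) d → |((q₂ * q ^ d : ℕ) : ℝ) * c j - a| ≤
        C * (q : ℝ) ^ d * E / (N : ℝ) ^ (j + 1) := by
      intro j
      by_cases hj : j ∈ Ico (i + 1) d
      · rw [Finset.mem_Ico] at hj
        obtain ⟨a, ha⟩ := hC' j hj.2 (by omega)
        exact ⟨a, fun _ => ha⟩
      · exact ⟨0, fun h => absurd h hj⟩
    choose a ha using hj
    obtain ⟨b, hb⟩ := hph i hi
    refine ⟨(q : ℤ) ^ (d - i - 1) * b - ∑ j ∈ Ico (i + 1) d,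
      (Nat.choose (j + 1) (i + 1) : ℤ) * (n : ℤ) ^ (j - i) * a j, ?_⟩
    rw [wd_ident d q n i q₂ c hi]
    push_cast
    have e1 : (q : ℝ) ^ (d - i - 1) * (q₂ * phr d q n c i) -
        ∑ j ∈ Ico (i + 1) d, (Nat.choose (j + 1) (i + 1) : ℝ) * (n : ℝ) ^ (j - i) *
        (((q₂ : ℝ) * (q : ℝ) ^ d) * c j) - ((q : ℝ) ^ (d - i - 1) * b -
        ∑ j ∈ Ico (i + 1) d, (Nat.choose (j + 1) (i + 1) : ℝ) * (n : ℝ) ^ (j - i) * (a j : ℝ)) =
        (q : ℝ) ^ (d - i - 1) * (q₂ * phr d q n c i - b) -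
        ∑ j ∈ Ico (i + 1) d, (Nat.choose (j + 1) (i + 1) : ℝ) * (n : ℝ) ^ (j - i) *
        (((q₂ : ℝ) * (q : ℝ) ^ d) * c j - a j) := by
      simp only [mul_sub, Finset.sum_sub_distrib]
      ring
    rw [e1]
    refine (abs_sub _ _).trans ?_
    have h1 : |(q : ℝ) ^ (d - i - 1) * (q₂ * phr d q n c i - b)| ≤
        (q : ℝ) ^ d * E / (N : ℝ) ^ (i + 1) := by
      rw [abs_mul, abs_of_nonneg (by positivity), mul_div_assoc]
      exact mul_le_mul (pow_le_pow_right₀ hq0 (by omega)) hb (abs_nonneg _) (by positivity)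
    have h2 : |∑ j ∈ Ico (i + 1) d, (Nat.choose (j + 1) (i + 1) : ℝ) * (n : ℝ) ^ (j - i) *
        (((q₂ : ℝ) * (q : ℝ) ^ d) * c j - a j)| ≤
        d * (2 ^ d * (C * (q : ℝ) ^ d * E / (N : ℝ) ^ (i + 1))) := by
      refine (Finset.abs_sum_le_sum_abs _ _).trans ?_
      refine (Finset.sum_le_card_nsmul _ _
        (2 ^ d * (C * (q : ℝ) ^ d * E / (N : ℝ) ^ (i + 1))) (fun j hj => ?_)).trans ?_
      · have h3 := ha j hj
        rw [Finset.mem_Ico] at hj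
        push_cast at h3
        rw [abs_mul, abs_mul, abs_of_nonneg (by positivity : (0 : ℝ) ≤
          (Nat.choose (j + 1) (i + 1) : ℝ)), abs_of_nonneg (by positivity : (0 : ℝ) ≤
          (n : ℝ) ^ (j - i)), mul_assoc]
        refine mul_le_mul ?_ ?_ (by positivity) (by positivity)
        · have h4 : Nat.choose (j + 1) (i + 1) ≤ 2 ^ (j + 1) := Nat.choose_le_two_pow _ _
          have h5 : Nat.choose (j + 1) (i + 1) ≤ 2 ^ d :=
            h4.trans (Nat.pow_le_pow_right (by norm_num) (by omega))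
          exact_mod_cast h5
        · calc (n : ℝ) ^ (j - i) * |(q₂ : ℝ) * (q : ℝ) ^ d * c j - a j|
              ≤ (N : ℝ) ^ (j - i) * (C * (q : ℝ) ^ d * E / (N : ℝ) ^ (j + 1)) := by
                refine mul_le_mul (pow_le_pow_left₀ (by positivity) hnN _) h3 (abs_nonneg _)
                  (by positivity)
            _ = C * (q : ℝ) ^ d * E / (N : ℝ) ^ (i + 1) := by
                have : (N : ℝ) ^ (j + 1) = (N : ℝ) ^ (j - i) * (N : ℝ) ^ (i + 1) := by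
                  rw [← pow_add]
                  congr 1
                  omega
                rw [this]
                field_simp
      · rw [nsmul_eq_mul, Nat.card_Ico]
        refine mul_le_mul_of_nonneg_right ?_ (by positivity)
        have : d - (i + 1) ≤ d := Nat.sub_le _ _
        exact_mod_cast this
    refine (add_le_add h1 h2).trans ?_
    have h3 : 0 ≤ C * (q : ℝ) ^ d * E / (N : ℝ) ^ (i + 1) := by positivity
    have e2 : (1 + C + d * 2 ^ d * C) * (q : ℝ) ^ d * E / (N : ℝ) ^ (i + 1) =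
        (q : ℝ) ^ d * E / (N : ℝ) ^ (i + 1) + C * (q : ℝ) ^ d * E / (N : ℝ) ^ (i + 1) +
        d * (2 ^ d * (C * (q : ℝ) ^ d * E / (N : ℝ) ^ (i + 1))) := by
      ring
    rw [e2]
    linarith

theorem pf_wWD : W_WD := by
  intro d
  obtain ⟨C, hC1, hC⟩ := wd_step d d (le_refl d)
  refine ⟨C, hC1, ?_⟩
  intro q n N q₂ c E hq hN hn hE hph i hi
  exact hC q n N q₂ c E hq hN hn hE hph i hi (by omega)

end Pool.Agent.H57.LVP
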